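import Pool.Agent.Run7.h356.LP.Stm

/-!
Piece POSB of the project MP_85210c_gt (helper356): the power series with the positivity
properties of POSA is a disc map.
-/

set_option autoImplicit false

noncomputable section

open MeasureTheory Filter Topology Set
open scoped BigOperators

namespace Run7.h676.LP

open H356LP

/-- derivative along a ray -/
theorem ray {f : ℂ → ℂ} {f' : ℂ} (z : ℂ) (s : ℝ) (h : HasDerivAt f f' ((s : ℂ) * z)) :
    HasDerivAt (fun s : ℝ => f ((s : ℂ) * z)) (z * f') s := by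
  have h1 : HasDerivAt (fun w : ℂ => w * z) z (s : ℂ) := by
    simpa using (hasDerivAt_id (s : ℂ)).mul_const z
  have h2 : HasDerivAt (fun w : ℂ => f (w * z)) (f' * z) (s : ℂ) := HasDerivAt.comp (s : ℂ) h h1
  have h3 := h2.comp_ofReal
  rwa [mul_comm] at h3

theorem ray_re {f : ℂ → ℂ} {f' : ℂ} (z : ℂ) (s : ℝ) (h : HasDerivAt f f' ((s : ℂ) * z)) :
    HasDerivAt (fun s : ℝ => (f ((s : ℂ) * z)).re) (z * f').re s := by
  exact (Complex.reCLM.hasFDerivAt (x := f ((s : ℂ) * z))).comp_hasDerivAt s (ray z s h)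

theorem ray_im {f : ℂ → ℂ} {f' : ℂ} (z : ℂ) (s : ℝ) (h : HasDerivAt f f' ((s : ℂ) * z)) :
    HasDerivAt (fun s : ℝ => (f ((s : ℂ) * z)).im) (z * f').im s := by
  exact (Complex.imCLM.hasFDerivAt (x := f ((s : ℂ) * z))).comp_hasDerivAt s (ray z s h)

theorem norm_ray {z : ℂ} (hz : ‖z‖ ≤ 1) {s : ℝ} (h0 : 0 ≤ s) (h1 : s ≤ 1) :
    ‖(s : ℂ) * z‖ ≤ 1 := by
  rw [norm_mul, Complex.norm_real, Real.norm_of_nonneg h0]
  exact mul_le_one₀ h1 (norm_nonneg _) hz

theorem norm_ray_lt {z : ℂ} (hz : ‖z‖ ≤ 1) {s : ℝ} (h0 : 0 ≤ s) (h1 : s < 1) :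
    ‖(s : ℂ) * z‖ < 1 := by
  rw [norm_mul, Complex.norm_real, Real.norm_of_nonneg h0]
  calc s * ‖z‖ ≤ s * 1 := by gcongr
    _ < 1 := by linarith

theorem cont_ray {f : ℂ → ℂ} (hf : ContinuousOn f (Metric.closedBall 0 1)) {z : ℂ}
    (hz : ‖z‖ ≤ 1) : ContinuousOn (fun s : ℝ => f ((s : ℂ) * z)) (Icc 0 1) := by
  refine hf.comp (by fun_prop) ?_
  intro s hs
  rw [Metric.mem_closedBall, dist_zero_right]
  exact norm_ray hz hs.1 hs.2

theorem mono {g g' : ℝ → ℝ} (hc : ContinuousOn g (Icc 0 1))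
    (hd : ∀ s, 0 < s → s < 1 → HasDerivAt g (g' s) s) (hn : ∀ s, 0 < s → s < 1 → 0 ≤ g' s) :
    MonotoneOn g (Icc 0 1) := by
  refine monotoneOn_of_deriv_nonneg (convex_Icc 0 1) hc ?_ ?_
  · rw [interior_Icc]
    intro s hs
    exact (hd s hs.1 hs.2).differentiableAt.differentiableWithinAt
  · rw [interior_Icc]
    intro s hs
    rw [(hd s hs.1 hs.2).deriv]
    exact hn s hs.1 hs.2

theorem smono {g g' : ℝ → ℝ} (hc : ContinuousOn g (Icc 0 1))
    (hd : ∀ s, 0 < s → s < 1 → HasDerivAt g (g' s) s) (hn : ∀ s, 0 < s → s < 1 → 0 < g' s) :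
    StrictMonoOn g (Icc 0 1) := by
  refine strictMonoOn_of_deriv_pos (convex_Icc 0 1) hc ?_
  rw [interior_Icc]
  intro s hs
  rw [(hd s hs.1 hs.2).deriv]
  exact hn s hs.1 hs.2

theorem POSB (h : S_PSR) : S_POSB := by
  intro a ha1 ha2 ha4 H1 H2 H3
  obtain ⟨P1, P2, P3, P4, P5, P6, P7, P8, P9, P10, P11, P12, P13, -⟩ := h a ha1 ha2
  -- `g1` is continuous
  have G1c : ContinuousOn (g1 a) (Metric.closedBall 0 1) := by
    have : g1 a = fun z => z * hd1 a z := funext P6
    rw [this]
    exact continuousOn_id.mul P2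
  have g1conj : ∀ z, g1 a (starRingEnd ℂ z) = starRingEnd ℂ (g1 a z) := by
    intro z
    rw [P6, P6, P10, map_mul]
  have g1zero : g1 a 0 = 0 := by rw [P6]; simp
  -- real part of `g1` along rays
  have A : ∀ z : ℂ, ‖z‖ ≤ 1 → 0 ≤ z.re →
      MonotoneOn (fun s : ℝ => (g1 a ((s : ℂ) * z)).re) (Icc 0 1) := by
    intro z hz hre
    refine mono (g' := fun s => (z * g2 a ((s : ℂ) * z)).re) ?_ ?_ ?_
    · exact Complex.continuous_re.comp_continuousOn (cont_ray G1c hz)
    · intro s h0 h1
      exact ray_re z s (P4 _ (norm_ray_lt hz h0.le h1))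
    · intro s h0 h1
      have h2 := H2 ((s : ℂ) * z) (norm_ray_lt hz h0.le h1) (by
        rw [Complex.re_ofReal_mul]; positivity)
      rw [mul_assoc, Complex.re_ofReal_mul] at h2
      exact nonneg_of_mul_nonneg_right h2 h0
  have A0 : ∀ z : ℂ, ‖z‖ ≤ 1 → 0 ≤ z.re → 0 ≤ (g1 a z).re := by
    intro z hz hre
    have := A z hz hre (left_mem_Icc.2 zero_le_one) (right_mem_Icc.2 zero_le_one) zero_le_one
    simpa [g1zero] using this
  have B0 : ∀ z : ℂ, ‖z‖ ≤ 1 → 0 < z.re → 0 < (g1 a z).re := by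
    intro z hz hre
    refine lt_of_le_of_ne (A0 z hz hre.le) (fun h0 => ?_)
    have hm := A z hz hre.le
    have hzero : ∀ s : ℝ, 0 < s → s ≤ 1 → (z * hd1 a ((s : ℂ) * z)).re = 0 := by
      intro s h1 h2
      have e1 : (g1 a ((s : ℂ) * z)).re ≤ 0 := by
        have := hm (⟨h1.le, h2⟩ : s ∈ Icc (0 : ℝ) 1) (right_mem_Icc.2 zero_le_one) h2
        simp only [Complex.ofReal_one, one_mul] at this
        rw [h0]; exact this
      have e2 : 0 ≤ (g1 a ((s : ℂ) * z)).re := A0 _ (norm_ray hz h1.le h2) (by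
        rw [Complex.re_ofReal_mul]; positivity)
      have e3 : (g1 a ((s : ℂ) * z)).re = 0 := le_antisymm e1 e2
      rw [P6, mul_assoc, Complex.re_ofReal_mul] at e3
      rcases mul_eq_zero.1 e3 with h | h
      · exact absurd h h1.ne'
      · exact h
    have hct : ContinuousOn (fun s : ℝ => (z * hd1 a ((s : ℂ) * z)).re) (Icc 0 1) :=
      Complex.continuous_re.comp_continuousOn (continuousOn_const.mul (cont_ray P2 hz))
    have ht : Tendsto (fun s : ℝ => (z * hd1 a ((s : ℂ) * z)).re) (𝓝[Ioc 0 1] 0)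
        (𝓝 (z * hd1 a (((0 : ℝ) : ℂ) * z)).re) :=
      ((hct 0 (left_mem_Icc.2 zero_le_one)).mono_left (nhdsWithin_mono _ Ioc_subset_Icc_self))
    have ht2 : Tendsto (fun s : ℝ => (z * hd1 a ((s : ℂ) * z)).re) (𝓝[Ioc 0 1] 0) (𝓝 0) := by
      refine tendsto_const_nhds.congr' ?_
      filter_upwards [self_mem_nhdsWithin] with s hs
      exact (hzero s hs.1 hs.2).symm
    have : (𝓝[Ioc (0 : ℝ) 1] 0).NeBot := by
      rw [nhdsWithin_Ioc_eq_nhdsGT zero_lt_one]; infer_instance
    have he := tendsto_nhds_unique ht ht2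
    rw [Complex.ofReal_zero, zero_mul, P12, Complex.mul_re, Complex.ofReal_re, Complex.ofReal_im,
      mul_zero, sub_zero] at he
    rcases mul_eq_zero.1 he with h | h
    · exact hre.ne' h
    · exact ha4.ne' h
  -- imaginary part of `g1`
  have C1 : ∀ z : ℂ, ‖z‖ ≤ 1 → z.im ≤ 0 → (g1 a z).im ≤ 0 := by
    intro z hz him
    have := H1 (starRingEnd ℂ z) (by rwa [RCLike.norm_conj]) (by
      rw [Complex.conj_im]; linarith)
    rw [g1conj, Complex.conj_im] at this
    linarith
  -- `h` along rays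
  have Hr : ∀ z : ℂ, ‖z‖ ≤ 1 → 0 < z.re → 0 < (hs a z).re := by
    intro z hz hre
    have hm : StrictMonoOn (fun s : ℝ => (hs a ((s : ℂ) * z)).re) (Icc 0 1) := by
      refine smono (g' := fun s => (z * hd1 a ((s : ℂ) * z)).re) ?_ ?_ ?_
      · exact Complex.continuous_re.comp_continuousOn (cont_ray P1 hz)
      · intro s h0 h1
        exact ray_re z s (P3 _ (norm_ray_lt hz h0.le h1))
      · intro s h0 h1
        have h2 := B0 ((s : ℂ) * z) (norm_ray_lt hz h0.le h1).le (by
          rw [Complex.re_ofReal_mul]; positivity)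
        rw [P6, mul_assoc, Complex.re_ofReal_mul] at h2
        exact (mul_pos_iff_of_pos_left h0).1 h2
    have := hm (left_mem_Icc.2 zero_le_one) (right_mem_Icc.2 zero_le_one) zero_lt_one
    simpa [P11] using this
  have Hi : ∀ z : ℂ, ‖z‖ ≤ 1 → 0 ≤ z.im → 0 ≤ (hs a z).im := by
    intro z hz him
    have hm : MonotoneOn (fun s : ℝ => (hs a ((s : ℂ) * z)).im) (Icc 0 1) := by
      refine mono (g' := fun s => (z * hd1 a ((s : ℂ) * z)).im) ?_ ?_ ?_
      · exact Complex.continuous_im.comp_continuousOn (cont_ray P1 hz)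
      · intro s h0 h1
        exact ray_im z s (P3 _ (norm_ray_lt hz h0.le h1))
      · intro s h0 h1
        have h2 := H1 ((s : ℂ) * z) (norm_ray_lt hz h0.le h1).le (by
          rw [Complex.im_ofReal_mul]; positivity)
        rw [P6, mul_assoc, Complex.im_ofReal_mul] at h2
        exact nonneg_of_mul_nonneg_right h2 h0
    have := hm (left_mem_Icc.2 zero_le_one) (right_mem_Icc.2 zero_le_one) zero_le_one
    simpa [P11] using this
  have Hi2 : ∀ z : ℂ, ‖z‖ ≤ 1 → z.im ≤ 0 → (hs a z).im ≤ 0 := by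
    intro z hz him
    have := Hi (starRingEnd ℂ z) (by rwa [RCLike.norm_conj]) (by
      rw [Complex.conj_im]; linarith)
    rw [P9, Complex.conj_im] at this
    linarith
  -- the product of the imaginary parts
  have Hii : ∀ z : ℂ, ‖z‖ ≤ 1 → 0 ≤ (g1 a z).im * (hs a z).im := by
    intro z hz
    rcases le_total 0 z.im with h0 | h0
    · exact mul_nonneg (H1 z hz h0) (Hi z hz h0)
    · exact mul_nonneg_of_nonpos_of_nonpos (C1 z hz h0) (Hi2 z hz h0)
  -- positivity on the circle
  have D1 : ∀ z : ℂ, ‖z‖ = 1 → 0 < z.re → 0 < (hd1 a z).re := by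
    intro z hz hre
    have hn : z * starRingEnd ℂ z = 1 := by
      rw [Complex.mul_conj, Complex.normSq_eq_norm_sq, hz]; simp
    have e : hd1 a z = starRingEnd ℂ z * g1 a z := by
      rw [P6, ← mul_assoc, mul_comm (starRingEnd ℂ z) z, hn, one_mul]
    rw [e, Complex.mul_re, Complex.conj_re, Complex.conj_im]
    have e1 := mul_pos hre (B0 z hz.le hre)
    have e2 : 0 ≤ z.im * (g1 a z).im := by
      rcases le_total 0 z.im with h0 | h0
      · exact mul_nonneg h0 (H1 z hz.le h0)
      · exact mul_nonneg_of_nonpos_of_nonpos h0 (C1 z hz.le h0)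
    linarith
  have D2 : 0 < (hd1 a Complex.I).re := by
    have e : ee (Real.pi / 2) = Complex.I := by
      unfold ee
      push_cast
      exact Complex.exp_pi_div_two_mul_I
    have h3 := H3 (Real.pi / 2) (by positivity) (by linarith [Real.pi_pos])
    rw [e, P6] at h3
    simpa using h3
  have D3 : ∀ z : ℂ, ‖z‖ = 1 → 0 < (hd1 a z).re := by
    intro z hz
    rcases lt_trichotomy z.re 0 with h0 | h0 | h0
    · rw [← P8]
      exact D1 (-z) (by rwa [norm_neg]) (by rw [Complex.neg_re]; linarith)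
    · have hzz : z = Complex.I ∨ z = -Complex.I := by
        have h1 : z.re ^ 2 + z.im ^ 2 = 1 := by
          have := Complex.sq_norm z
          rw [hz, Complex.normSq_apply] at this
          nlinarith
        rw [h0] at h1
        have h2 : (z.im - 1) * (z.im + 1) = 0 := by nlinarith
        rcases mul_eq_zero.1 h2 with h3 | h3
        · left
          apply Complex.ext
          · simpa using h0
          · simp; linarith
        · right
          apply Complex.ext
          · simpa using h0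
          · simp; linarith
      rcases hzz with rfl | rfl
      · exact D2
      · rw [P8]; exact D2
    · exact D1 z hz h0
  -- lower bound on the circle
  obtain ⟨c0, hc0, hc⟩ : ∃ c0 : ℝ, 0 < c0 ∧ ∀ z : ℂ, ‖z‖ = 1 → c0 ≤ (hd1 a z).re := by
    have hK : IsCompact (Metric.sphere (0 : ℂ) 1) := isCompact_sphere 0 1
    have hne : (Metric.sphere (0 : ℂ) 1).Nonempty := ⟨1, by simp⟩
    have hcs : ContinuousOn (fun z => (hd1 a z).re) (Metric.sphere (0 : ℂ) 1) :=
      Complex.continuous_re.comp_continuousOn (P2.mono Metric.sphere_subset_closedBall)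
    obtain ⟨w, hw, hmin⟩ := hK.exists_isMinOn hne hcs
    refine ⟨(hd1 a w).re, D3 w (by simpa using hw), fun z hz => ?_⟩
    exact hmin (by simpa using hz)
  have hre : ∀ z : ℂ, ‖z‖ ≤ 1 → c0 ≤ (hd1 a z).re := by
    intro z hz
    have hd : DiffContOnCl ℂ (fun z => Complex.exp (-hd1 a z)) (Metric.ball (0 : ℂ) 1) := by
      refine ⟨P5.neg.cexp, ?_⟩
      rw [closure_ball (0 : ℂ) one_ne_zero]
      exact P2.neg.cexp
    have := Complex.norm_le_of_forall_mem_frontier_norm_le (C := Real.exp (-c0))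
      Metric.isBounded_ball hd (fun w hw => ?_) (z := z) (by
        rw [closure_ball (0 : ℂ) one_ne_zero, Metric.mem_closedBall, dist_zero_right]; exact hz)
    · rw [Complex.norm_exp, Complex.neg_re] at this
      have := Real.exp_le_exp.1 this
      linarith
    · rw [frontier_ball (0 : ℂ) one_ne_zero] at hw
      have hw' : ‖w‖ = 1 := by simpa using hw
      rw [Complex.norm_exp, Complex.neg_re]
      exact Real.exp_le_exp.2 (by linarith [hc w hw'])
  -- star
  have hI : ∀ z : ℂ, ‖z‖ ≤ 1 → z.re = 0 → 0 < z.im → 0 < (hs a z).im := by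
    intro z hz h0 him
    have hm : StrictMonoOn (fun s : ℝ => (hs a ((s : ℂ) * z)).im) (Icc 0 1) := by
      refine smono (g' := fun s => (z * hd1 a ((s : ℂ) * z)).im) ?_ ?_ ?_
      · exact Complex.continuous_im.comp_continuousOn (cont_ray P1 hz)
      · intro s h0 h1
        exact ray_im z s (P3 _ (norm_ray_lt hz h0.le h1))
      · intro s h1 h2
        rw [Complex.mul_im, h0, zero_mul, zero_add]
        exact mul_pos him (hc0.trans_le (hre _ (norm_ray_lt hz h1.le h2).le))
    have := hm (left_mem_Icc.2 zero_le_one) (right_mem_Icc.2 zero_le_one) zero_lt_one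
    simpa [P11] using this
  have star1 : ∀ z : ℂ, ‖z‖ ≤ 1 → (0 < z.re ∨ (z.re = 0 ∧ 0 < z.im)) →
      0 < (z * hd1 a z * starRingEnd ℂ (hs a z)).re := by
    intro z hz hc
    rw [← P6, Complex.mul_re, Complex.conj_re, Complex.conj_im]
    rcases hc with h0 | ⟨h0, h1⟩
    · have e1 := mul_pos (B0 z hz h0) (Hr z hz h0)
      have e2 := Hii z hz
      linarith
    · have hz2 : starRingEnd ℂ z = -z := by
        apply Complex.ext
        · rw [Complex.conj_re, Complex.neg_re, h0, neg_zero]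
        · rw [Complex.conj_im, Complex.neg_im]
      have e1 : (hs a z).re = 0 := by
        have h5 := P9 z
        rw [hz2, P7] at h5
        have := congrArg Complex.re h5
        rw [Complex.neg_re, Complex.conj_re] at this
        linarith
      have e2 : 0 < (g1 a z).im := by
        rw [P6, Complex.mul_im, h0, zero_mul, zero_add]
        exact mul_pos h1 (hc0.trans_le (hre _ hz))
      have e3 := mul_pos e2 (hI z hz h0 h1)
      rw [e1]
      linarith
  have star : ∀ z : ℂ, ‖z‖ ≤ 1 → z ≠ 0 →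
      0 < (z * hd1 a z * starRingEnd ℂ (hs a z)).re := by
    intro z hz hz0
    by_cases hc : 0 < z.re ∨ (z.re = 0 ∧ 0 < z.im)
    · exact star1 z hz hc
    · have e : z * hd1 a z * starRingEnd ℂ (hs a z) =
          (-z) * hd1 a (-z) * starRingEnd ℂ (hs a (-z)) := by
        rw [P7, P8, map_neg]; ring
      rw [e]
      refine star1 (-z) (by rwa [norm_neg]) ?_
      push Not at hc
      obtain ⟨hc1, hc2⟩ := hc
      rcases hc1.lt_or_eq with h0 | h0
      · left; rw [Complex.neg_re]; linarith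
      · right
        refine ⟨by rw [Complex.neg_re, h0, neg_zero], ?_⟩
        rw [Complex.neg_im]
        have h1 := hc2 h0
        rcases h1.lt_or_eq with h2 | h2
        · linarith
        · exact absurd (Complex.ext h0 h2) hz0
  exact ⟨{
    h := hs a
    hd := hd1 a
    c0 := c0
    c0_pos := hc0
    der := P3
    cont := P1
    contd := P2
    dda := P5
    re := hre
    zero := P11
    real0 := by rw [P12, Complex.ofReal_im]
    odd := P7
    evend := P8
    star := star
    derb := P13 }, rfl⟩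

end Run7.h676.LP
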